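import Pool.Agent.N874.PP.Lat

/-!
Project PP (helper874): the cubic of the twist is irreducible (S_IRK, by helper999).
-/

set_option autoImplicit false

open Polynomial

namespace Pool.Agent.N999.PP

theorem natDegree_cubic {F : Type} [Field F] (u v : F) :
    (X ^ 3 + C u * X + C v : F[X]).natDegree = 3 := by
  compute_degree!

theorem monic_cubic {F : Type} [Field F] (u v : F) : (X ^ 3 + C u * X + C v : F[X]).Monic := by
  monicity!

/-- a polynomial zero of `X ^ 3 + a X + b` gives a zero of the leading cubic -/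
theorem lead_zero {k : Type} [Field k] (a b r : k[X]) (N : ℕ) (ha : a.natDegree ≤ 4 * N)
    (hb : b.natDegree ≤ 6 * N) (h : r ^ 3 + a * r + b = 0) :
    ∃ ρ : k, ρ ^ 3 + a.coeff (4 * N) * ρ + b.coeff (6 * N) = 0 := by
  have hr : r.natDegree ≤ 2 * N := by
    by_contra hlt
    rw [not_le] at hlt
    have h1 : (r ^ 3).natDegree = 3 * r.natDegree := natDegree_pow _ _
    have h2 : (a * r).natDegree ≤ 4 * N + r.natDegree := natDegree_mul_le_of_le ha le_rfl
    have h3 : (a * r + b).natDegree ≤ max (4 * N + r.natDegree) (6 * N) :=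
      natDegree_add_le_of_le h2 hb
    have h4 : r ^ 3 = -(a * r + b) := by linear_combination h
    rw [h4, natDegree_neg] at h1
    omega
  refine ⟨r.coeff (2 * N), ?_⟩
  have e := congrArg (fun p => p.coeff (6 * N)) h
  simp only [coeff_add, coeff_zero] at e
  have e1 : (r ^ 3).coeff (6 * N) = r.coeff (2 * N) ^ 3 := by
    have := coeff_pow_of_natDegree_le (m := 3) hr
    rw [← this]
    congr 1
    ring
  have e2 : (a * r).coeff (6 * N) = a.coeff (4 * N) * r.coeff (2 * N) := by
    have := coeff_mul_add_eq_of_natDegree_le ha hr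
    rw [← this]
    congr 1
    ring
  rw [e1, e2] at e
  exact e

theorem irk : Pool.Agent.N874.PP.S_IRK := by
  intro k K _ _ _ _ a b N ha hb hirr D hD
  rw [(monic_cubic _ _).irreducible_iff_roots_eq_zero_of_degree_le_three
    (by rw [natDegree_cubic]; norm_num) (by rw [natDegree_cubic])]
  by_contra hne
  obtain ⟨z, hz⟩ := Multiset.exists_mem_of_ne_zero hne
  rw [mem_roots (monic_cubic _ _).ne_zero, IsRoot.def] at hz
  simp only [eval_add, eval_pow, eval_X, eval_mul, eval_C, map_mul, map_pow] at hz
  have hinj := IsFractionRing.injective k[X] K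
  have hD' : algebraMap k[X] K D ≠ 0 := (map_ne_zero_iff _ hinj).2 hD
  -- the zero `r = z / D`
  have hr : (z / algebraMap k[X] K D) ^ 3 + algebraMap k[X] K a * (z / algebraMap k[X] K D) +
      algebraMap k[X] K b = 0 := by
    field_simp
    linear_combination hz
  have hint : IsIntegral k[X] (z / algebraMap k[X] K D) := by
    refine ⟨X ^ 3 + C a * X + C b, by monicity!, ?_⟩
    simpa using hr
  obtain ⟨r, hr'⟩ := IsIntegrallyClosed.isIntegral_iff.1 hint
  have hr2 : r ^ 3 + a * r + b = 0 := by
    apply hinj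
    rw [map_zero, ← hr, ← hr']
    simp
  obtain ⟨ρ, hρ⟩ := lead_zero a b r N ha hb hr2
  have h1 : (X ^ 3 + C (a.coeff (4 * N)) * X + C (b.coeff (6 * N)) : k[X]).IsRoot ρ := by
    rw [IsRoot.def]
    simpa using hρ
  have h2 := natDegree_eq_of_degree_eq_some (degree_eq_one_of_irreducible_of_root hirr h1)
  rw [natDegree_cubic] at h2
  norm_num at h2

end Pool.Agent.N999.PP
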